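import Mathlib
import Pool.Agent.H.MP_5851c7_co.C

set_option autoImplicit false

namespace Pool.Agent.Results.MP_5851c7_co.Yes

open Pool.Agent.H.MP_5851c7_co Finset

/-- balanced degree: out-degree minus in-degree of `v` in the arc set `B` -/
noncomputable def bal {V : Type} (B : Set (V × V)) (v : V) : ℤ :=
  ({w | (v, w) ∈ B}.ncard : ℤ) - {w | (w, v) ∈ B}.ncard

/-- the arc set `B` is strong locally irregular -/
def SLI {V : Type} (B : Set (V × V)) : Prop := ∀ u v, (u, v) ∈ B → bal B u ≠ bal B v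

theorem ncard_eq {V : Type} [Fintype V] (p : V → Prop) :
    (({w | p w}.ncard : ℕ) : ℤ) = ∑ w, ind (p w) := by
  classical
  rw [show {w | p w} = ((univ.filter p : Finset V) : Set V) by simp, Set.ncard_coe_finset,
    card_filter]
  push_cast
  exact sum_congr rfl fun a _ => by unfold ind; congr

/-- An absolute number of colours suffices for a strong locally irregular colouring. -/
theorem result : ∃ C : ℕ, ∀ (V : Type) [Fintype V] (A : Set (V × V)), (∀ v, (v, v) ∉ A) →
    ∃ c : V × V → Fin C, ∀ i, SLI {a | a ∈ A ∧ c a = i} := by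
  refine ⟨Fintype.card (Col ⊕ Col), fun V _ A hA => ?_⟩
  obtain ⟨c, hc⟩ := dec_all (F := fun u v => (u, v) ∈ A) hA
  let e := Fintype.equivFin (Col ⊕ Col)
  refine ⟨fun a => e (c a.1 a.2), fun i u v h => ?_⟩
  have := hc (e.symm i) u v ⟨h.1, e.eq_symm_apply.mpr h.2⟩
  simp only [bal, Set.mem_setOf_eq, ncard_eq, ← e.eq_symm_apply]
  exact this

end Pool.Agent.Results.MP_5851c7_co.Yes
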